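import Pool.Agent.OligoTerm.Lim

/-!
Universality and homogeneity from the extension property.
-/

namespace Pool.Agent.OligoTerm

open Str

theorem exists_chain {α : Type} (P : Set α → Prop) (Req : ℕ → Set α → Prop)
    (hstep : ∀ F, P F → ∀ n, ∃ F', P F' ∧ F ⊆ F' ∧ Req n F') (F0 : Set α) (h0 : P F0) :
    ∃ F : ℕ → Set α, F 0 = F0 ∧ (∀ n, P (F n)) ∧ Monotone F ∧ ∀ n, Req n (F (n + 1)) := by
  choose! nx h1 h2 h3 using hstep
  let F : ℕ → {F : Set α // P F} := fun n =>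
    Nat.rec ⟨F0, h0⟩ (fun n G => ⟨nx G.1 n, h1 G.1 G.2 n⟩) n
  refine ⟨fun n => (F n).1, rfl, fun n => (F n).2, ?_, ?_⟩
  · exact monotone_nat_of_le_succ fun n => h2 (F n).1 (F n).2 n
  · intro n
    exact h3 (F n).1 (F n).2 n

variable {X Y : Type}

theorem PI.iUnion {N : Str X} {M : Str Y} {F : ℕ → Set (X × Y)} (hm : Monotone F)
    (h : ∀ n, PI N M (F n)) : PI N M (⋃ n, F n) := by
  have key : ∀ p ∈ ⋃ n, F n, ∀ q ∈ ⋃ n, F n, ∀ r ∈ ⋃ n, F n,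
      ∃ n, p ∈ F n ∧ q ∈ F n ∧ r ∈ F n := by
    intro p hp q hq r hr
    obtain ⟨a, ha⟩ := Set.mem_iUnion.1 hp
    obtain ⟨b, hb⟩ := Set.mem_iUnion.1 hq
    obtain ⟨c, hc⟩ := Set.mem_iUnion.1 hr
    refine ⟨a + b + c, hm (by omega) ha, hm (by omega) hb, hm (by omega) hc⟩
  refine ⟨?_, ?_, ?_, ?_⟩
  · intro p hp q hq
    obtain ⟨n, h1, h2, _⟩ := key p hp q hq q hq
    exact (h n).inj p h1 q h2
  · intro p hp q hq r hr
    obtain ⟨n, h1, h2, h3⟩ := key p hp q hq r hr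
    exact (h n).T p h1 q h2 r h3
  · intro p hp
    obtain ⟨n, h1, _⟩ := key p hp p hp p hp
    exact (h n).G p h1
  · intro p hp q hq
    obtain ⟨n, h1, h2, _⟩ := key p hp q hq q hq
    exact (h n).S p h1 q h2

theorem PI.swap {N : Str X} {M : Str Y} {F : Set (X × Y)} (h : PI N M F) :
    PI M N (Prod.swap '' F) := by
  refine ⟨?_, ?_, ?_, ?_⟩
  · rintro _ ⟨p, hp, rfl⟩ _ ⟨q, hq, rfl⟩
    exact (h.inj p hp q hq).symm
  · rintro _ ⟨p, hp, rfl⟩ _ ⟨q, hq, rfl⟩ _ ⟨r, hr, rfl⟩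
    exact (h.T p hp q hq r hr).symm
  · rintro _ ⟨p, hp, rfl⟩
    exact (h.G p hp).symm
  · rintro _ ⟨p, hp, rfl⟩ _ ⟨q, hq, rfl⟩
    exact (h.S p hp q hq).symm

/-- Universality: every countable good structure embeds. -/
theorem universal [Countable X] {N : Str X} (hN : N.Good) {M : Str Y} (hM : Ext M) :
    ∃ f : X → Y, Function.Injective f ∧ (∀ a b c, N.T a b c ↔ M.T (f a) (f b) (f c)) := by
  classical
  rcases isEmpty_or_nonempty X with hX | hX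
  · exact ⟨fun x => (hX.false x).elim, fun x => (hX.false x).elim, fun x => (hX.false x).elim⟩
  obtain ⟨g, hg⟩ := exists_surjective_nat X
  obtain ⟨F, -, hP, hm, hR⟩ := exists_chain (fun F : Set (X × Y) => F.Finite ∧ PI N M F)
    (fun n F => ∃ y, (g n, y) ∈ F)
    (by
      rintro F ⟨h1, h2⟩ n
      obtain ⟨y, hy⟩ := hM X N hN F h1 h2 (g n)
      exact ⟨insert (g n, y) F, ⟨h1.insert _, hy⟩, Set.subset_insert _ _, y,
        Set.mem_insert _ _⟩)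
    ∅ ⟨Set.finite_empty, by refine ⟨?_, ?_, ?_, ?_⟩ <;> simp⟩
  have hU := PI.iUnion hm (fun n => (hP n).2)
  have hdom : ∀ x, ∃ y, (x, y) ∈ ⋃ n, F n := by
    intro x
    obtain ⟨n, rfl⟩ := hg x
    obtain ⟨y, hy⟩ := hR n
    exact ⟨y, Set.mem_iUnion.2 ⟨n + 1, hy⟩⟩
  choose f hf using hdom
  refine ⟨f, ?_, ?_⟩
  · intro a b hab
    exact (hU.inj _ (hf a) _ (hf b)).2 hab
  · intro a b c
    exact hU.T _ (hf a) _ (hf b) _ (hf c)

/-- Homogeneity: finite partial isomorphisms extend to permutations preserving `T`. -/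
theorem homogeneous {M : Str ℕ} (hG : M.Good) (hM : Ext M) {F0 : Set (ℕ × ℕ)}
    (h0 : F0.Finite) (hP0 : PI M M F0) :
    ∃ g : Equiv.Perm ℕ, (∀ p ∈ F0, g p.1 = p.2) ∧
      ∀ a b c, M.T a b c ↔ M.T (g a) (g b) (g c) := by
  classical
  obtain ⟨F, hF0, hP, hm, hR⟩ := exists_chain (fun F : Set (ℕ × ℕ) => F.Finite ∧ PI M M F)
    (fun n F => (∃ y, (n, y) ∈ F) ∧ ∃ x, (x, n) ∈ F)
    (by
      rintro F ⟨h1, h2⟩ n
      obtain ⟨y, hy⟩ := hM ℕ M hG F h1 h2 n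
      have h3 : (insert (n, y) F).Finite := h1.insert _
      obtain ⟨x, hx⟩ := hM ℕ M hG _ (h3.image Prod.swap) hy.swap n
      have hx' := hx.swap
      rw [Set.image_insert_eq] at hx'
      have hss : Prod.swap '' (Prod.swap '' (insert (n, y) F)) = insert (n, y) F := by
        rw [Set.image_image]; simp
      rw [hss] at hx'
      refine ⟨insert (x, n) (insert (n, y) F), ⟨h3.insert _, hx'⟩, ?_, ⟨y, ?_⟩, ⟨x, ?_⟩⟩
      · exact (Set.subset_insert _ _).trans (Set.subset_insert _ _)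
      · exact Set.mem_insert_of_mem _ (Set.mem_insert _ _)
      · exact Set.mem_insert _ _)
    F0 ⟨h0, hP0⟩
  have hU := PI.iUnion hm (fun n => (hP n).2)
  have hdom : ∀ x, ∃ y, (x, y) ∈ ⋃ n, F n := by
    intro n
    obtain ⟨y, hy⟩ := (hR n).1
    exact ⟨y, Set.mem_iUnion.2 ⟨n + 1, hy⟩⟩
  have hran : ∀ y, ∃ x, (x, y) ∈ ⋃ n, F n := by
    intro n
    obtain ⟨y, hy⟩ := (hR n).2
    exact ⟨y, Set.mem_iUnion.2 ⟨n + 1, hy⟩⟩
  choose f hf using hdom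
  choose f' hf' using hran
  have h1 : ∀ x, f' (f x) = x := fun x => (hU.inj _ (hf' (f x)) _ (hf x)).2 rfl
  have h2 : ∀ x, f (f' x) = x := fun x => (hU.inj _ (hf (f' x)) _ (hf' x)).1 rfl
  refine ⟨⟨f, f', h1, h2⟩, ?_, ?_⟩
  · intro p hp
    have hp' : p ∈ ⋃ n, F n := Set.mem_iUnion.2 ⟨0, by rw [hF0]; exact hp⟩
    exact (hU.inj _ (hf p.1) _ hp').1 rfl
  · intro a b c
    exact hU.T _ (hf a) _ (hf b) _ (hf c)

end Pool.Agent.OligoTerm
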