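import Mathlib

/-!
Algebras, term operations, closed oligomorphic algebras, linear identities, terminator terms.
-/

namespace Pool.Agent.OligoTerm

/-- An algebra: a universe `A` with a family of finitary basic operations. -/
structure Alg where
  /-- the universe -/
  A : Type
  /-- names of the basic operations -/
  I : Type
  /-- arities -/
  ar : I → ℕ
  /-- the basic operations -/
  op : ∀ i : I, (Fin (ar i) → A) → A

/-- The term operations of an algebra: the smallest family of finitary operations which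
contains the projections and is closed under applying the basic operations. -/
inductive Alg.TermOp (𝔸 : Alg) : (n : ℕ) → ((Fin n → 𝔸.A) → 𝔸.A) → Prop
  | proj {n : ℕ} (k : Fin n) : Alg.TermOp 𝔸 n (fun x => x k)
  | app {n : ℕ} (i : 𝔸.I) (g : Fin (𝔸.ar i) → (Fin n → 𝔸.A) → 𝔸.A)
      (h : ∀ j, Alg.TermOp 𝔸 n (g j)) : Alg.TermOp 𝔸 n (fun x => 𝔸.op i (fun j => g j x))

/-- The clone of term operations is closed in the topology of pointwise convergence
(the universe carries the discrete topology). -/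
def Alg.Closed (𝔸 : Alg) : Prop :=
  letI : TopologicalSpace 𝔸.A := ⊥
  ∀ n : ℕ, IsClosed {f : (Fin n → 𝔸.A) → 𝔸.A | 𝔸.TermOp n f}

/-- The permutations of the universe that are unary term operations form a group `G`, and
for every `n` there are finitely many `n`-tuples which meet every orbit of `G` on
`n`-tuples. -/
def Alg.Oligomorphic (𝔸 : Alg) : Prop :=
  ∃ G : Subgroup (Equiv.Perm 𝔸.A),
    (∀ g : Equiv.Perm 𝔸.A, g ∈ G ↔ 𝔸.TermOp 1 (fun x => g (x 0))) ∧
    ∀ n : ℕ, ∃ R : Set (Fin n → 𝔸.A), R.Finite ∧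
      ∀ x : Fin n → 𝔸.A, ∃ r ∈ R, ∃ g ∈ G, ∀ i, x i = g (r i)

/-- Closed oligomorphic algebras. -/
structure Alg.ClosedOligomorphic (𝔸 : Alg) : Prop where
  countable : Countable 𝔸.A
  closed : 𝔸.Closed
  oligomorphic : 𝔸.Oligomorphic

/-- A signature: operation symbols with arities. -/
structure Sig where
  /-- the symbols -/
  Sym : Type
  /-- arities -/
  ar : Sym → ℕ

/-- One side of a linear identity: a variable, or one operation symbol applied to variables.
The variables are the natural numbers. -/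
inductive LTerm (σ : Sig) : Type
  | var (x : ℕ) : LTerm σ
  | app (s : σ.Sym) (v : Fin (σ.ar s) → ℕ) : LTerm σ

/-- The value of one side of an identity under an interpretation `m` of the symbols and an
assignment `x` of the variables. -/
def LTerm.eval {σ : Sig} {A : Type} (m : ∀ s : σ.Sym, (Fin (σ.ar s) → A) → A) (x : ℕ → A) :
    LTerm σ → A
  | .var n => x n
  | .app s v => m s (fun j => x (v j))

/-- `m` and all assignments satisfy the identities in `E`. -/
def Holds {σ : Sig} {A : Type} (m : ∀ s : σ.Sym, (Fin (σ.ar s) → A) → A)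
    (E : Set (LTerm σ × LTerm σ)) : Prop :=
  ∀ e ∈ E, ∀ x : ℕ → A, e.1.eval m x = e.2.eval m x

/-- The algebra satisfies the set `E` of linear identities: the symbols can be interpreted as
term operations such that all identities hold. -/
def Alg.Satisfies (𝔸 : Alg) {σ : Sig} (E : Set (LTerm σ × LTerm σ)) : Prop :=
  ∃ m : ∀ s : σ.Sym, (Fin (σ.ar s) → 𝔸.A) → 𝔸.A,
    (∀ s, 𝔸.TermOp (σ.ar s) (m s)) ∧ Holds m E

/-- A set of linear identities is nontrivial if it cannot be satisfied by interpreting the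
symbols as projections (on the two-element set `Bool`). -/
def NontrivialSet {σ : Sig} (E : Set (LTerm σ × LTerm σ)) : Prop :=
  ¬ ∃ π : ∀ s : σ.Sym, Fin (σ.ar s), Holds (A := Bool) (fun s y => y (π s)) E

/-- Terminator terms. -/
def Alg.HasTerminatorTerms (𝔸 : Alg) : Prop :=
  ∃ c c₁ c₂ c₁₁ c₁₂ c₂₁ c₂₂ : (Fin 3 → 𝔸.A) → 𝔸.A,
    (𝔸.TermOp 3 c ∧ 𝔸.TermOp 3 c₁ ∧ 𝔸.TermOp 3 c₂ ∧ 𝔸.TermOp 3 c₁₁ ∧ 𝔸.TermOp 3 c₁₂ ∧
      𝔸.TermOp 3 c₂₁ ∧ 𝔸.TermOp 3 c₂₂) ∧
    ∀ x y : 𝔸.A,
      c ![x, y, x] = c₁ ![x, x, y] ∧ c ![y, x, x] = c₂ ![x, x, y] ∧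
      c₁ ![x, y, x] = c₁₁ ![x, x, y] ∧ c₁ ![y, x, x] = c₁₂ ![x, x, y] ∧
      c₂ ![x, y, x] = c₂₁ ![x, x, y] ∧ c₂ ![y, x, x] = c₂₂ ![x, x, y] ∧
      c₁₁ ![x, y, x] = c₁₂ ![x, y, x] ∧ c₁₁ ![y, x, x] = c₁₂ ![y, x, x] ∧
      c₂₁ ![x, y, x] = c₂₂ ![x, y, x] ∧ c₂₁ ![y, x, x] = c₂₂ ![y, x, x]

end Pool.Agent.OligoTerm
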