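import Pool.Agent.OligoTerm.BF
import Pool.Agent.OligoTerm.Defs

/-!
The algebra of all operations on the generic structure which preserve `T` and reflect it
weakly; it is closed oligomorphic and has no terminator terms.
-/

namespace Pool.Agent.OligoTerm

open Str

/-- The operations of the algebra. -/
def Cl (n : ℕ) : Set ((Fin n → ℕ) → ℕ) :=
  {f | (∀ p q r : Fin n → ℕ, (∀ i, lim.T (p i) (q i) (r i)) → lim.T (f p) (f q) (f r)) ∧
    (∀ p q r : Fin n → ℕ, lim.T (f p) (f q) (f r) → ∃ i, lim.T (p i) (q i) (r i))}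

/-- The algebra. -/
def alg : Alg where
  A := ℕ
  I := Σ n : ℕ, {f : (Fin n → ℕ) → ℕ // f ∈ Cl n}
  ar := fun i => i.1
  op := fun i => i.2.1

theorem termOp_of {n : ℕ} {f : (Fin n → ℕ) → ℕ} (h : f ∈ Cl n) : alg.TermOp n f :=
  Alg.TermOp.app (𝔸 := alg) (⟨n, f, h⟩ : alg.I) (fun j x => x j)
    (fun j => Alg.TermOp.proj (𝔸 := alg) j)

theorem mem_of_termOp {n : ℕ} {f : (Fin n → alg.A) → alg.A} (h : alg.TermOp n f) :
    (∀ p q r : Fin n → ℕ, (∀ i, lim.T (p i) (q i) (r i)) → lim.T (f p) (f q) (f r)) ∧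
    (∀ p q r : Fin n → ℕ, lim.T (f p) (f q) (f r) → ∃ i, lim.T (p i) (q i) (r i)) := by
  induction h with
  | proj k => exact ⟨fun p q r h => h k, fun p q r h => ⟨k, h⟩⟩
  | app i g h ih =>
    constructor
    · intro p q r hT
      exact i.2.2.1 _ _ _ (fun j => (ih j).1 p q r hT)
    · intro p q r hT
      obtain ⟨j, hj⟩ := i.2.2.2 _ _ _ hT
      exact (ih j).2 p q r hj

theorem termOp_iff {n : ℕ} (f : (Fin n → ℕ) → ℕ) : alg.TermOp n f ↔ f ∈ Cl n :=
  ⟨fun h => mem_of_termOp h, termOp_of⟩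

theorem alg_closed : alg.Closed := by
  intro n
  letI : TopologicalSpace ℕ := ⊥
  haveI : DiscreteTopology ℕ := ⟨rfl⟩
  have h1 : {f : (Fin n → ℕ) → ℕ | alg.TermOp n f} =
      ⋂ (p : Fin n → ℕ), ⋂ (q : Fin n → ℕ), ⋂ (r : Fin n → ℕ),
        {f | (∀ i, lim.T (p i) (q i) (r i)) → lim.T (f p) (f q) (f r)} ∩
        {f | lim.T (f p) (f q) (f r) → ∃ i, lim.T (p i) (q i) (r i)} := by
    ext f
    simp only [Set.mem_iInter, Set.mem_inter_iff, Set.mem_setOf_eq]
    rw [termOp_iff]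
    constructor
    · intro h p q r
      exact ⟨h.1 p q r, h.2 p q r⟩
    · intro h
      exact ⟨fun p q r => (h p q r).1, fun p q r => (h p q r).2⟩
  show IsClosed {f : (Fin n → ℕ) → ℕ | alg.TermOp n f}
  rw [h1]
  refine isClosed_iInter fun p => isClosed_iInter fun q => isClosed_iInter fun r => ?_
  have hc : Continuous (fun f : (Fin n → ℕ) → ℕ => (f p, f q, f r)) :=
    (continuous_apply p).prodMk ((continuous_apply q).prodMk (continuous_apply r))
  refine IsClosed.inter ?_ ?_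
  · exact (isClosed_discrete
      {t : ℕ × ℕ × ℕ | (∀ i, lim.T (p i) (q i) (r i)) → lim.T t.1 t.2.1 t.2.2}).preimage hc
  · exact (isClosed_discrete
      {t : ℕ × ℕ × ℕ | lim.T t.1 t.2.1 t.2.2 → ∃ i, lim.T (p i) (q i) (r i)}).preimage hc

/-- The group of `T`-automorphisms. -/
def autT : Subgroup (Equiv.Perm ℕ) where
  carrier := {g | ∀ a b c, lim.T a b c ↔ lim.T (g a) (g b) (g c)}
  mul_mem' := by
    intro g h hg hh a b c
    exact (hh a b c).trans (hg _ _ _)
  one_mem' := fun a b c => Iff.rfl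
  inv_mem' := by
    intro g hg a b c
    have := hg (g⁻¹ a) (g⁻¹ b) (g⁻¹ c)
    simpa using this.symm

theorem alg_oligomorphic : alg.Oligomorphic := by
  classical
  refine ⟨autT, ?_, ?_⟩
  · intro g
    refine Iff.trans ?_ (termOp_iff (n := 1) (fun x => g (x 0))).symm
    constructor
    · intro hg
      exact ⟨fun p q r h => (hg _ _ _).1 (h 0), fun p q r h => ⟨0, (hg _ _ _).2 h⟩⟩
    · rintro ⟨h1, h2⟩ a b c
      constructor
      · intro h
        exact h1 (fun _ => a) (fun _ => b) (fun _ => c) (fun _ => h)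
      · intro h
        obtain ⟨i, hi⟩ := h2 (fun _ => a) (fun _ => b) (fun _ => c) h
        exact hi
  · intro n
    let typ : (Fin n → ℕ) → (Fin n → Fin n → Prop) × Str (Fin n) :=
      fun x => (fun i j => x i = x j, lim.pull x)
    let rep : (Set.range typ) → (Fin n → ℕ) := fun t => t.2.choose
    have hrep : ∀ t : Set.range typ, typ (rep t) = t.1 := fun t => t.2.choose_spec
    refine ⟨Set.range rep, Set.finite_range rep, ?_⟩
    intro x
    refine ⟨rep ⟨typ x, x, rfl⟩, ⟨_, rfl⟩, ?_⟩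
    set r := rep ⟨typ x, x, rfl⟩ with hr
    have ht : typ r = typ x := hrep ⟨typ x, x, rfl⟩
    have e1 : ∀ i j, r i = r j ↔ x i = x j := fun i j =>
      iff_of_eq (congrFun (congrFun (congrArg Prod.fst ht) i) j)
    have e2 : lim.pull r = lim.pull x := congrArg Prod.snd ht
    have e3 : ∀ i j k, lim.T (r i) (r j) (r k) ↔ lim.T (x i) (x j) (x k) := fun i j k =>
      iff_of_eq (congrFun (congrFun (congrFun (congrArg Prod.fst e2) i) j) k)
    have e4 : ∀ i, lim.G (r i) ↔ lim.G (x i) := fun i =>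
      iff_of_eq (congrFun (congrArg (fun z => z.2.1) e2) i)
    have e5 : ∀ i j, lim.S (r i) (r j) ↔ lim.S (x i) (x j) := fun i j =>
      iff_of_eq (congrFun (congrFun (congrArg (fun z => z.2.2) e2) i) j)
    have hPI : PI lim lim (Set.range fun i => (r i, x i)) := by
      refine ⟨?_, ?_, ?_, ?_⟩
      · rintro _ ⟨i, rfl⟩ _ ⟨j, rfl⟩; exact e1 i j
      · rintro _ ⟨i, rfl⟩ _ ⟨j, rfl⟩ _ ⟨k, rfl⟩; exact e3 i j k
      · rintro _ ⟨i, rfl⟩; exact e4 i
      · rintro _ ⟨i, rfl⟩ _ ⟨j, rfl⟩; exact e5 i j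
    obtain ⟨g, hg, hgT⟩ := homogeneous lim_good lim_ext (Set.finite_range _) hPI
    exact ⟨g, hgT, fun i => (hg _ ⟨i, rfl⟩).symm⟩

/-- The structure `1-in-3`. -/
def oneInThree : Str Bool :=
  (fun a b c => (a = false ∧ b = false ∧ c = true) ∨ (a = false ∧ b = true ∧ c = false) ∨
      (a = true ∧ b = false ∧ c = false),
    fun a => a = true, fun a b => a = b)

theorem oneInThree_good : oneInThree.Good := by
  refine ⟨?_, ?_, ?_⟩
  · intro a b c; cases a <;> cases b <;> cases c <;> simp [oneInThree, Str.T, Str.S, Str.G]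
  · intro a b u v
    cases a <;> cases b <;> cases u <;> cases v <;> simp [oneInThree, Str.T, Str.S]
  · intro w a b
    cases w <;> cases a <;> cases b <;> simp [oneInThree, Str.T, Str.G]

theorem no_terminator : ¬ alg.HasTerminatorTerms := by
  rintro ⟨c, c1, c2, c11, c12, c21, c22, ⟨h, h1, h2, h11, h12, h21, h22⟩, hid⟩
  obtain ⟨f, -, hf⟩ := universal oneInThree_good lim_ext
  let x : alg.A := f false
  let y : alg.A := f true
  have t1 : lim.T x x y := (hf false false true).1 (Or.inl ⟨rfl, rfl, rfl⟩)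
  have t2 : lim.T x y x := (hf false true false).1 (Or.inr (Or.inl ⟨rfl, rfl, rfl⟩))
  have t3 : lim.T y x x := (hf true false false).1 (Or.inr (Or.inr ⟨rfl, rfl, rfl⟩))
  have key : ∀ d : (Fin 3 → alg.A) → alg.A, alg.TermOp 3 d →
      lim.T (d ![x, x, y]) (d ![x, y, x]) (d ![y, x, x]) := by
    intro d hd
    refine (mem_of_termOp hd).1 _ _ _ ?_
    intro i
    match i with
    | 0 => exact t1
    | 1 => exact t2
    | 2 => exact t3
  have hx := hid x y
  obtain ⟨e1, e2, e3, e4, e5, e6, e7, e8, e9, e10⟩ := hx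
  have k := key c h
  have k1 := key c1 h1
  have k2 := key c2 h2
  have k11 := key c11 h11
  have k12 := key c12 h12
  have k21 := key c21 h21
  have k22 := key c22 h22
  rw [e1, e2] at k
  rw [e3, e4] at k1
  rw [e5, e6] at k2
  rw [e7, e8] at k11
  rw [e9, e10] at k21
  exact lim_good.no _ _ _ k
    (lim_good.tg _ _ _ k1 (lim_good.ts _ _ _ _ k11 k12))
    (lim_good.tg _ _ _ k2 (lim_good.ts _ _ _ _ k21 k22))

end Pool.Agent.OligoTerm
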