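import Pool.Agent.OligoTerm.Str

/-!
The generic countable structure of the class `Good`, built on `ℕ`.
-/

namespace Pool.Agent.OligoTerm

open Str

/-- `F` is (the graph of) a partial isomorphism between `N` and `M`. -/
structure PI {X Y : Type} (N : Str X) (M : Str Y) (F : Set (X × Y)) : Prop where
  inj : ∀ p ∈ F, ∀ q ∈ F, p.1 = q.1 ↔ p.2 = q.2
  T : ∀ p ∈ F, ∀ q ∈ F, ∀ r ∈ F, N.T p.1 q.1 r.1 ↔ M.T p.2 q.2 r.2
  G : ∀ p ∈ F, N.G p.1 ↔ M.G p.2
  S : ∀ p ∈ F, ∀ q ∈ F, N.S p.1 q.1 ↔ M.S p.2 q.2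

/-- The extension property of `M`. -/
def Ext {Y : Type} (M : Str Y) : Prop :=
  ∀ (X : Type) (N : Str X), N.Good → ∀ F : Set (X × Y), F.Finite → PI N M F →
    ∀ x : X, ∃ y : Y, PI N M (insert (x, y) F)

/-- The place of the elements of `Option B` in `ℕ` at stage `n`. -/
def iota (n : ℕ) (B : Finset ℕ) : Option B → ℕ := fun o => o.elim n Subtype.val

theorem iota_inj {n : ℕ} {B : Finset ℕ} (h : ∀ b ∈ B, b < n) :
    Function.Injective (iota n B) := by
  rintro (_ | a) (_ | b) hab
  · rfl
  · have := h b.1 b.2; simp [iota] at hab; omega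
  · have := h a.1 a.2; simp [iota] at hab; omega
  · simp only [iota, Option.elim] at hab
    rw [Subtype.ext hab]

/-- A task is valid at stage `n`. -/
structure Valid (M : Str ℕ) (n : ℕ) (t : Σ B : Finset ℕ, Str (Option B)) : Prop where
  lt : ∀ b ∈ t.1, b < n
  good : Good t.2
  agree : Agree M (t.2.push (iota n t.1)) {x | x ∈ t.1}

open Classical in
/-- One step of the construction. -/
noncomputable def step (M : Str ℕ) (n : ℕ) (t : Σ B : Finset ℕ, Str (Option B)) : Str ℕ :=
  if Valid M n t then amal M (t.2.push (iota n t.1)) else M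

theorem exists_task : ∃ f : ℕ → Σ B : Finset ℕ, Str (Option B), Function.Surjective f := by
  haveI : Nonempty (Σ B : Finset ℕ, Str (Option B)) :=
    ⟨⟨∅, (fun _ _ _ => False, fun _ => False, fun _ _ => False)⟩⟩
  exact exists_surjective_nat _

/-- The enumeration of the tasks. -/
noncomputable def task : ℕ → Σ B : Finset ℕ, Str (Option B) := exists_task.choose

theorem task_surj : Function.Surjective task := exists_task.choose_spec

/-- The stages. -/
noncomputable def stage : ℕ → Str ℕ
  | 0 => (fun _ _ _ => False, fun _ => False, fun _ _ => False)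
  | n + 1 => step (stage n) n (task n.unpair.1)

theorem push_supp {n : ℕ} {B : Finset ℕ} (P : Str (Option B)) :
    (P.push (iota n B)).Supp {x | x ∈ B ∨ x = n} := by
  have key : ∀ o : Option B, iota n B o ∈ {x | x ∈ B ∨ x = n} := by
    rintro (_ | b)
    · exact Or.inr rfl
    · exact Or.inl b.2
  refine ⟨?_, ?_, ?_⟩
  · rintro x y z ⟨a, b, c, rfl, rfl, rfl, -⟩
    exact ⟨key a, key b, key c⟩
  · rintro x ⟨a, rfl, -⟩
    exact key a
  · rintro x y ⟨a, b, rfl, rfl, -⟩
    exact ⟨key a, key b⟩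

theorem inter_eq {n : ℕ} {B : Finset ℕ} (h : ∀ b ∈ B, b < n) :
    {x | x < n} ∩ {x | x ∈ B ∨ x = n} = {x | x ∈ B} := by
  ext x
  constructor
  · rintro ⟨h1, h2 | h2⟩
    · exact h2
    · simp only [Set.mem_setOf_eq] at h1 h2; omega
  · intro hx
    exact ⟨h x hx, Or.inl hx⟩

theorem stage_inv (n : ℕ) : (stage n).Good ∧ (stage n).Supp {x | x < n} := by
  induction n with
  | zero =>
    refine ⟨⟨?_, ?_, ?_⟩, ⟨?_, ?_, ?_⟩⟩ <;> simp [stage]
  | succ n ih =>
    obtain ⟨h1, h2⟩ := ih
    unfold stage step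
    split_ifs with hv
    · have hg : (Str.push (task n.unpair.1).2 (iota n (task n.unpair.1).1)).Good :=
        hv.good.push (iota_inj hv.lt)
      have hs := push_supp (n := n) (task n.unpair.1).2
      have ha : Agree (stage n) (Str.push (task n.unpair.1).2 (iota n (task n.unpair.1).1))
          ({x | x < n} ∩ {x | x ∈ (task n.unpair.1).1 ∨ x = n}) := by
        rw [inter_eq hv.lt]; exact hv.agree
      refine ⟨amal_good h1 hg h2 hs ha, amal_supp h2 hs ?_ ?_⟩
      · intro x hx; simp only [Set.mem_setOf_eq] at hx ⊢; omega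
      · rintro x (hx | hx)
        · have := hv.lt x hx; simp only [Set.mem_setOf_eq]; omega
        · simp only [Set.mem_setOf_eq]; omega
    · refine ⟨h1, ?_⟩
      have hsub : ∀ x, x < n → x < n + 1 := fun x hx => by omega
      exact ⟨fun a b c h => ⟨hsub _ (h2.T a b c h).1, hsub _ (h2.T a b c h).2.1,
        hsub _ (h2.T a b c h).2.2⟩, fun a h => hsub _ (h2.G a h),
        fun a b h => ⟨hsub _ (h2.S a b h).1, hsub _ (h2.S a b h).2⟩⟩

theorem stage_agree (n : ℕ) : Agree (stage (n + 1)) (stage n) {x | x < n} := by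
  obtain ⟨h1, h2⟩ := stage_inv n
  rw [stage]
  unfold step
  split_ifs with hv
  · have hg : (Str.push (task n.unpair.1).2 (iota n (task n.unpair.1).1)).Good :=
      hv.good.push (iota_inj hv.lt)
    have hs := push_supp (n := n) (task n.unpair.1).2
    exact amal_agree h1 hg h2 hs (by rw [inter_eq hv.lt]; exact hv.agree)
  · exact ⟨fun _ _ _ _ _ _ => Iff.rfl, fun _ _ => Iff.rfl, fun _ _ _ _ => Iff.rfl⟩

theorem stage_agree' (n k : ℕ) : Agree (stage (n + k)) (stage n) {x | x < n} := by
  induction k with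
  | zero => exact ⟨fun _ _ _ _ _ _ => Iff.rfl, fun _ _ => Iff.rfl, fun _ _ _ _ => Iff.rfl⟩
  | succ k ih =>
    refine Agree.trans ((stage_agree (n + k)).mono ?_) ih
    intro x hx; simp only [Set.mem_setOf_eq] at hx ⊢; omega

/-- The limit. -/
def lim : Str ℕ :=
  (fun a b c => ∃ n, (stage n).T a b c, fun a => ∃ n, (stage n).G a,
    fun a b => ∃ n, (stage n).S a b)

theorem lim_agree (n : ℕ) : Agree lim (stage n) {x | x < n} := by
  refine ⟨?_, ?_, ?_⟩
  · intro a ha b hb c hc
    constructor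
    · rintro ⟨m, hm⟩
      rcases le_total n m with h | h
      · obtain ⟨k, rfl⟩ := Nat.exists_eq_add_of_le h
        exact ((stage_agree' n k).T a ha b hb c hc).1 hm
      · obtain ⟨k, rfl⟩ := Nat.exists_eq_add_of_le h
        obtain ⟨h1, h2, h3⟩ := (stage_inv m).2.T _ _ _ hm
        exact ((stage_agree' m k).T a h1 b h2 c h3).2 hm
    · intro h; exact ⟨n, h⟩
  · intro a ha
    constructor
    · rintro ⟨m, hm⟩
      rcases le_total n m with h | h
      · obtain ⟨k, rfl⟩ := Nat.exists_eq_add_of_le h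
        exact ((stage_agree' n k).G a ha).1 hm
      · obtain ⟨k, rfl⟩ := Nat.exists_eq_add_of_le h
        have h1 := (stage_inv m).2.G _ hm
        exact ((stage_agree' m k).G a h1).2 hm
    · intro h; exact ⟨n, h⟩
  · intro a ha b hb
    constructor
    · rintro ⟨m, hm⟩
      rcases le_total n m with h | h
      · obtain ⟨k, rfl⟩ := Nat.exists_eq_add_of_le h
        exact ((stage_agree' n k).S a ha b hb).1 hm
      · obtain ⟨k, rfl⟩ := Nat.exists_eq_add_of_le h
        obtain ⟨h1, h2⟩ := (stage_inv m).2.S _ _ hm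
        exact ((stage_agree' m k).S a h1 b h2).2 hm
    · intro h; exact ⟨n, h⟩

theorem lim_good : lim.Good := by
  refine ⟨?_, ?_, ?_⟩
  · intro a b c ht hs
    let n := a + b + c + 1
    have ha : a < n := by omega
    have hb : b < n := by omega
    have hc : c < n := by omega
    have L := lim_agree n
    exact (L.G a ha).2 ((stage_inv n).1.tg a b c ((L.T a ha b hb c hc).1 ht)
      ((L.S b hb c hc).1 hs))
  · intro a b u v h1 h2
    let n := a + b + u + v + 1
    have ha : a < n := by omega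
    have hb : b < n := by omega
    have hu : u < n := by omega
    have hv : v < n := by omega
    have L := lim_agree n
    exact (L.S a ha b hb).2 ((stage_inv n).1.ts a b u v ((L.T a ha u hu v hv).1 h1)
      ((L.T b hb u hu v hv).1 h2))
  · intro w a b ht h1 h2
    let n := w + a + b + 1
    have hw : w < n := by omega
    have ha : a < n := by omega
    have hb : b < n := by omega
    have L := lim_agree n
    exact (stage_inv n).1.no w a b ((L.T w hw a ha b hb).1 ht) ((L.G a ha).1 h1)
      ((L.G b hb).1 h2)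

theorem lim_ext : Ext lim := by
  classical
  intro X N hN F hF hPI x
  by_cases hx : ∃ y, (x, y) ∈ F
  · obtain ⟨y, hy⟩ := hx
    refine ⟨y, ?_⟩
    rw [Set.insert_eq_of_mem hy]
    exact hPI
  have hx' : ∀ y, (x, y) ∉ F := fun y hy => hx ⟨y, hy⟩
  -- the finite set of values
  set B : Finset ℕ := hF.toFinset.image Prod.snd with hB
  have memB : ∀ b, b ∈ B ↔ ∃ a, (a, b) ∈ F := by
    intro b
    rw [hB]
    simp
  have hpre : ∀ b : B, ∃ a, (a, (b : ℕ)) ∈ F := fun b => (memB b.1).1 b.2
  choose pre hpre using hpre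
  let j : Option B → X := fun o => o.elim x pre
  let P : Str (Option B) := N.pull j
  obtain ⟨k, hk⟩ := task_surj ⟨B, P⟩
  let n : ℕ := Nat.pair k (B.sup id + 1)
  have hn : task n.unpair.1 = ⟨B, P⟩ := by
    simp only [n, Nat.unpair_pair]; exact hk
  have hlt : ∀ b ∈ B, b < n := by
    intro b hb
    have h1 : b ≤ B.sup id := Finset.le_sup (f := id) hb
    have h2 : B.sup id + 1 ≤ n := Nat.right_le_pair _ _
    omega
  have hinj := iota_inj hlt
  have hjval : ∀ b : B, ∀ a, (a, (b : ℕ)) ∈ F → a = pre b := by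
    intro b a ha
    exact (hPI.inj _ ha _ (hpre b)).2 rfl
  have hpairs : ∀ p ∈ F, ∃ o : Option B, p = (j o, iota n B o) ∧ ∃ b : B, o = some b := by
    rintro ⟨a, b⟩ hp
    have hb : b ∈ B := (memB b).2 ⟨a, hp⟩
    exact ⟨some ⟨b, hb⟩, Prod.ext (hjval ⟨b, hb⟩ a hp) rfl, ⟨b, hb⟩, rfl⟩
  have hsome : ∀ b : B, (j (some b), iota n B (some b)) ∈ F := fun b => hpre b
  have hvalid : Valid (stage n) n ⟨B, P⟩ := by
    refine ⟨hlt, hN.pull j, ?_⟩
    have hL : Agree (stage n) lim {x | x ∈ B} :=
      (lim_agree n).symm.mono (fun b hb => hlt b hb)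
    refine hL.trans ⟨?_, ?_, ?_⟩
    · intro a ha b hb c hc
      have e1 := hPI.T _ (hsome ⟨a, ha⟩) _ (hsome ⟨b, hb⟩) _ (hsome ⟨c, hc⟩)
      have e2 := push_T (M := P) hinj (a := some ⟨a, ha⟩) (b := some ⟨b, hb⟩) (c := some ⟨c, hc⟩)
      exact e1.symm.trans e2.symm
    · intro a ha
      have e1 := hPI.G _ (hsome ⟨a, ha⟩)
      have e2 := push_G (M := P) hinj (a := some ⟨a, ha⟩)
      exact e1.symm.trans e2.symm
    · intro a ha b hb
      have e1 := hPI.S _ (hsome ⟨a, ha⟩) _ (hsome ⟨b, hb⟩)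
      have e2 := push_S (M := P) hinj (a := some ⟨a, ha⟩) (b := some ⟨b, hb⟩)
      exact e1.symm.trans e2.symm
  have hstage : stage (n + 1) = amal (stage n) (P.push (iota n B)) := by
    rw [stage, hn]
    unfold step
    rw [if_pos hvalid]
  have hAg : Agree lim (P.push (iota n B)) {x | x ∈ B ∨ x = n} := by
    have h1 : Agree lim (stage (n + 1)) {x | x ∈ B ∨ x = n} := by
      refine (lim_agree (n + 1)).mono ?_
      rintro y (hy | hy)
      · have := hlt y hy; simp only [Set.mem_setOf_eq]; omega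
      · simp only [Set.mem_setOf_eq]; omega
    refine h1.trans ?_
    rw [hstage]
    exact amal_agree' (stage_inv n).1 (hvalid.good.push hinj) (stage_inv n).2 (push_supp P)
      (by rw [inter_eq hlt]; exact hvalid.agree)
  have hmem : ∀ o : Option B, iota n B o ∈ {x | x ∈ B ∨ x = n} := by
    rintro (_ | b)
    · exact Or.inr rfl
    · exact Or.inl b.2
  have hjinj : Function.Injective j := by
    rintro (_ | a) (_ | b) hab
    · rfl
    · exact absurd (by rw [show x = pre b from hab]; exact hpre b) (hx' (b : ℕ))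
    · exact absurd (by rw [show x = pre a from hab.symm]; exact hpre a) (hx' (a : ℕ))
    · have h1 : (pre a, (b : ℕ)) ∈ F := by
        have : pre a = pre b := hab
        rw [this]; exact hpre b
      have h2 := (hPI.inj _ (hpre a) _ h1).1 rfl
      exact congrArg some (Subtype.ext h2)
  refine ⟨n, ?_⟩
  have hall : ∀ p ∈ insert (x, n) F, ∃ o : Option B, p = (j o, iota n B o) := by
    rintro p (rfl | hp)
    · exact ⟨none, rfl⟩
    · obtain ⟨o, ho, -⟩ := hpairs p hp
      exact ⟨o, ho⟩
  refine ⟨?_, ?_, ?_, ?_⟩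
  · intro p hp q hq
    obtain ⟨o, rfl⟩ := hall p hp
    obtain ⟨o', rfl⟩ := hall q hq
    exact hjinj.eq_iff.trans hinj.eq_iff.symm
  · intro p hp q hq r hr
    obtain ⟨o, rfl⟩ := hall p hp
    obtain ⟨o', rfl⟩ := hall q hq
    obtain ⟨o'', rfl⟩ := hall r hr
    exact (push_T (M := P) hinj (a := o) (b := o') (c := o'')).symm.trans
      (hAg.T _ (hmem o) _ (hmem o') _ (hmem o'')).symm
  · intro p hp
    obtain ⟨o, rfl⟩ := hall p hp
    exact (push_G (M := P) hinj (a := o)).symm.trans (hAg.G _ (hmem o)).symm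
  · intro p hp q hq
    obtain ⟨o, rfl⟩ := hall p hp
    obtain ⟨o', rfl⟩ := hall q hq
    exact (push_S (M := P) hinj (a := o) (b := o')).symm.trans
      (hAg.S _ (hmem o) _ (hmem o')).symm

end Pool.Agent.OligoTerm
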