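import Pool.Agent.OligoTerm.Clone

/-!
The nontrivial set of linear identities satisfied by the algebra.
-/

namespace Pool.Agent.OligoTerm

open Str

/-- Targets and sources of the seven edges of the digraph. -/
def tt : Fin 7 → Fin 4 := ![1, 0, 3, 2, 2, 3, 2]
/-- Sources. -/
def ss : Fin 7 → Fin 4 := ![0, 1, 2, 3, 0, 0, 1]
/-- A section of `ss`. -/
def es : Fin 4 → Fin 7 := ![0, 1, 2, 3]
/-- A section of `tt`. -/
def et : Fin 4 → Fin 7 := ![1, 0, 3, 2]

theorem ss_es (k : Fin 4) : ss (es k) = k := by revert k; decide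
theorem tt_et (k : Fin 4) : tt (et k) = k := by revert k; decide

theorem ss_inj {u v : Fin 4 → ℕ} (h : u ∘ ss = v ∘ ss) : u = v := by
  funext k
  have := congrFun h (es k)
  simpa [ss_es] using this

theorem tt_inj {u v : Fin 4 → ℕ} (h : u ∘ tt = v ∘ tt) : u = v := by
  funext k
  have := congrFun h (et k)
  simpa [tt_et] using this

/-- The constant function. -/
def IsC {k : ℕ} (p : Fin k → ℕ) : Prop := ∃ c, p = fun _ => c

theorem cross {u v : Fin 4 → ℕ} (h : u ∘ tt = v ∘ ss) : IsC u := by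
  have e : ∀ j, u (tt j) = v (ss j) := fun j => congrFun h j
  have h0 := e 0
  have h1 := e 1
  have h2 := e 2
  have h3 := e 3
  have h4 := e 4
  have h5 := e 5
  have h6 := e 6
  simp only [tt, ss, Matrix.cons_val] at h0 h1 h2 h3 h4 h5 h6
  refine ⟨u 0, funext fun k => ?_⟩
  fin_cases k
  · rfl
  · show u 1 = u 0; omega
  · show u 2 = u 0; omega
  · show u 3 = u 0; omega

theorem IsC.comp {k l : ℕ} {p : Fin k → ℕ} (h : IsC p) (f : Fin l → Fin k) : IsC (p ∘ f) := by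
  obtain ⟨c, rfl⟩ := h
  exact ⟨c, rfl⟩

theorem isC_of_ss {u : Fin 4 → ℕ} (h : IsC (u ∘ ss)) : IsC u := by
  obtain ⟨c, hc⟩ := h
  exact ⟨c, ss_inj (v := fun _ => c) hc⟩

theorem isC_of_tt {u : Fin 4 → ℕ} (h : IsC (u ∘ tt)) : IsC u := by
  obtain ⟨c, hc⟩ := h
  exact ⟨c, tt_inj (v := fun _ => c) hc⟩

/-- The points of the indicator structure before gluing. -/
abbrev Q : Type := Fin 9 × (Fin 7 → ℕ)

open Classical in
/-- The canonical representative. -/
noncomputable def nf (P : Q) : Q :=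
  if IsC P.2 then (0, P.2)
  else if h : ∃ u : Fin 4 → ℕ, P.2 = u ∘ ss then (P.1 - 1, h.choose ∘ tt) else P

theorem nf_const {P : Q} (h : IsC P.2) : nf P = (0, P.2) := by
  unfold nf; rw [if_pos h]

theorem nf_ss {i : Fin 9} {u : Fin 4 → ℕ} (h : ¬ IsC u) : nf (i, u ∘ ss) = (i - 1, u ∘ tt) := by
  have h1 : ¬ IsC ((i, u ∘ ss) : Q).2 := fun hc => h (isC_of_ss hc)
  have h2 : ∃ v : Fin 4 → ℕ, ((i, u ∘ ss) : Q).2 = v ∘ ss := ⟨u, rfl⟩
  unfold nf
  rw [if_neg h1, dif_pos h2]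
  rw [← ss_inj (u := u) (v := h2.choose) h2.choose_spec]

theorem nf_other {P : Q} (h : ¬ IsC P.2) (h' : ¬ ∃ u : Fin 4 → ℕ, P.2 = u ∘ ss) : nf P = P := by
  unfold nf; rw [if_neg h, dif_neg h']

theorem nf_glue (i : Fin 9) (u : Fin 4 → ℕ) : nf (i, u ∘ tt) = nf (i + 1, u ∘ ss) := by
  by_cases hu : IsC u
  · rw [nf_const (P := (i, u ∘ tt)) (hu.comp tt), nf_const (P := (i + 1, u ∘ ss)) (hu.comp ss)]
    obtain ⟨c, rfl⟩ := hu
    rfl
  · rw [nf_ss hu, nf_other]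
    · simp
    · exact fun hc => hu (isC_of_tt hc)
    · rintro ⟨v, hv⟩
      exact hu (cross hv)

theorem nf_eq {i i' : Fin 9} {p p' : Fin 7 → ℕ} (h : nf (i, p) = nf (i', p')) :
    (i = i' ∧ p = p') ∨ (p = p' ∧ IsC p) ∨ (i' = i + 1 ∧ ∃ u, p = u ∘ tt ∧ p' = u ∘ ss) ∨
      (i = i' + 1 ∧ ∃ u, p = u ∘ ss ∧ p' = u ∘ tt) := by
  by_cases hp : IsC p
  · rw [nf_const (P := (i, p)) hp] at h
    by_cases hp' : IsC p'
    · rw [nf_const (P := (i', p')) hp'] at h
      exact Or.inr (Or.inl ⟨congrArg Prod.snd h, hp⟩)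
    · by_cases hs' : ∃ u : Fin 4 → ℕ, p' = u ∘ ss
      · obtain ⟨u, rfl⟩ := hs'
        have hu : ¬ IsC u := fun hc => hp' (hc.comp ss)
        rw [nf_ss hu] at h
        have h2 : p = u ∘ tt := congrArg Prod.snd h
        rw [h2] at hp
        exact absurd (isC_of_tt hp) hu
      · rw [nf_other (P := (i', p')) hp' hs'] at h
        have h2 : p = p' := congrArg Prod.snd h
        rw [h2] at hp
        exact absurd hp hp'
  · by_cases hs : ∃ u : Fin 4 → ℕ, p = u ∘ ss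
    · obtain ⟨u, rfl⟩ := hs
      have hu : ¬ IsC u := fun hc => hp (hc.comp ss)
      rw [nf_ss hu] at h
      by_cases hp' : IsC p'
      · rw [nf_const (P := (i', p')) hp'] at h
        have h2 : u ∘ tt = p' := congrArg Prod.snd h
        rw [← h2] at hp'
        exact absurd (isC_of_tt hp') hu
      · by_cases hs' : ∃ u : Fin 4 → ℕ, p' = u ∘ ss
        · obtain ⟨v, rfl⟩ := hs'
          have hv : ¬ IsC v := fun hc => hp' (hc.comp ss)
          rw [nf_ss hv] at h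
          have h1 : i - 1 = i' - 1 := congrArg Prod.fst h
          have h2 : u ∘ tt = v ∘ tt := congrArg Prod.snd h
          exact Or.inl ⟨sub_left_injective h1, by rw [tt_inj h2]⟩
        · rw [nf_other (P := (i', p')) hp' hs'] at h
          have h1 : i - 1 = i' := congrArg Prod.fst h
          have h2 : u ∘ tt = p' := congrArg Prod.snd h
          exact Or.inr (Or.inr (Or.inr ⟨by rw [← h1]; simp, u, rfl, h2.symm⟩))
    · rw [nf_other (P := (i, p)) hp hs] at h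
      by_cases hp' : IsC p'
      · rw [nf_const (P := (i', p')) hp'] at h
        have h2 : p = p' := congrArg Prod.snd h
        rw [h2] at hp
        exact absurd hp' hp
      · by_cases hs' : ∃ u : Fin 4 → ℕ, p' = u ∘ ss
        · obtain ⟨v, rfl⟩ := hs'
          have hv : ¬ IsC v := fun hc => hp' (hc.comp ss)
          rw [nf_ss hv] at h
          have h1 : i = i' - 1 := congrArg Prod.fst h
          have h2 : p = v ∘ tt := congrArg Prod.snd h
          exact Or.inr (Or.inr (Or.inl ⟨by rw [h1]; simp, v, h2, rfl⟩))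
        · rw [nf_other (P := (i', p')) hp' hs'] at h
          exact Or.inl ⟨congrArg Prod.fst h, congrArg Prod.snd h⟩

theorem kappa (i i' : Fin 9) : ∃ κ : Fin 7 → Fin 7, ∀ p p' : Fin 7 → ℕ,
    nf (i, p) = nf (i', p') → p = p' ∘ κ := by
  have a1 : ∀ j : Fin 9, j ≠ j + 1 := by decide
  have a2 : ∀ j : Fin 9, j ≠ j + 1 + 1 := by decide
  by_cases h1 : i = i'
  · subst h1
    refine ⟨id, fun p p' h => ?_⟩
    rcases nf_eq h with ⟨_, h⟩ | ⟨h, _⟩ | ⟨h, _⟩ | ⟨h, _⟩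
    · exact h
    · exact h
    · exact absurd h (a1 i)
    · exact absurd h (a1 i)
  by_cases h2 : i' = i + 1
  · subst h2
    refine ⟨es ∘ tt, fun p p' h => ?_⟩
    rcases nf_eq h with ⟨h, _⟩ | ⟨h, c, hc⟩ | ⟨_, u, h, h'⟩ | ⟨h, _⟩
    · exact absurd h (a1 i)
    · rw [← h, hc]; rfl
    · rw [h, h']; funext j; simp [ss_es]
    · exact absurd h (a2 i)
  by_cases h3 : i = i' + 1
  · subst h3
    refine ⟨et ∘ ss, fun p p' h => ?_⟩
    rcases nf_eq h with ⟨h, _⟩ | ⟨h, c, hc⟩ | ⟨h, _⟩ | ⟨_, u, h, h'⟩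
    · exact absurd h.symm (a1 i')
    · rw [← h, hc]; rfl
    · exact absurd h (a2 i')
    · rw [h, h']; funext j; simp [tt_et]
  · refine ⟨id, fun p p' h => ?_⟩
    rcases nf_eq h with ⟨h, _⟩ | ⟨h, _⟩ | ⟨h, _⟩ | ⟨h, _⟩
    · exact absurd h h1
    · exact h
    · exact absurd h h2
    · exact absurd h h3

/-- `T` in copy `i`. -/
def TQi (i : Fin 9) (a b c : Q) : Prop :=
  ∃ p q r : Fin 7 → ℕ, nf (i, p) = a ∧ nf (i, q) = b ∧ nf (i, r) = c ∧
    ∀ j, lim.T (p j) (q j) (r j)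

/-- The glued relation. -/
def TQ (a b c : Q) : Prop := ∃ i, TQi i a b c

/-- The structure on the glued set. -/
def QStr : Str Q :=
  (TQ, fun a => ∃ b c, TQ a b c ∧ ∃ u v, TQ b u v ∧ TQ c u v,
    fun a b => ∃ u v, TQ a u v ∧ TQ b u v)

theorem TQ_reflect {i : Fin 9} {p q r : Fin 7 → ℕ}
    (h : TQ (nf (i, p)) (nf (i, q)) (nf (i, r))) : ∀ j, lim.T (p j) (q j) (r j) := by
  obtain ⟨i', p', q', r', h1, h2, h3, hT⟩ := h
  obtain ⟨κ, hκ⟩ := kappa i i'
  rw [hκ p p' h1.symm, hκ q q' h2.symm, hκ r r' h3.symm]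
  intro j
  exact hT (κ j)

/-- The coordinate used in copy `i` when copy `s` is not used. -/
def crd (s i : Fin 9) : Fin 7 := if (i - s).val % 2 = 1 then 0 else 1

theorem crd_step : ∀ s i : Fin 9, i ≠ s → i + 1 ≠ s → tt (crd s i) = ss (crd s (i + 1)) := by
  decide

theorem crd_eq {s i i' : Fin 9} {p p' : Fin 7 → ℕ} (h : nf (i, p) = nf (i', p'))
    (hi : i ≠ s) (hi' : i' ≠ s) : p (crd s i) = p' (crd s i') := by
  rcases nf_eq h with ⟨h1, h2⟩ | ⟨h, c, hc⟩ | ⟨h1, u, h2, h3⟩ | ⟨h1, u, h2, h3⟩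
  · rw [h1, h2]
  · rw [← h, hc]
  · subst h1
    rw [h2, h3]
    exact congrArg u (crd_step s i hi hi')
  · subst h1
    rw [h2, h3]
    exact congrArg u (crd_step s i' hi' hi).symm

theorem local_hom (s : Fin 9) : ∃ φ : Q → ℕ, ∀ i, i ≠ s → ∀ a b c, TQi i a b c →
    lim.T (φ a) (φ b) (φ c) := by
  classical
  let φ : Q → ℕ := fun P =>
    if h : ∃ x : Q, x.1 ≠ s ∧ nf x = P then h.choose.2 (crd s h.choose.1) else 0
  have hφ : ∀ i, i ≠ s → ∀ p, φ (nf (i, p)) = p (crd s i) := by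
    intro i hi p
    have h : ∃ x : Q, x.1 ≠ s ∧ nf x = nf (i, p) := ⟨(i, p), hi, rfl⟩
    have e : φ (nf (i, p)) = h.choose.2 (crd s h.choose.1) := dif_pos h
    rw [e]
    exact crd_eq (i := h.choose.1) (p := h.choose.2) h.choose_spec.2 h.choose_spec.1 hi
  refine ⟨φ, ?_⟩
  rintro i hi _ _ _ ⟨p, q, r, rfl, rfl, rfl, hT⟩
  rw [hφ i hi, hφ i hi, hφ i hi]
  exact hT _

theorem exists_unused (l : List (Fin 9)) (hl : l.length ≤ 8) : ∃ s, s ∉ l := by
  by_contra h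
  push Not at h
  have h1 : (Finset.univ : Finset (Fin 9)) ⊆ l.toFinset := fun s _ => List.mem_toFinset.2 (h s)
  have h2 := Finset.card_le_card h1
  have h3 := List.toFinset_card_le l
  simp at h2
  omega

theorem QStr_good : QStr.Good := by
  refine ⟨?_, ?_, ?_⟩
  · intro a b c h1 h2
    exact ⟨b, c, h1, h2⟩
  · intro a b u v h1 h2
    exact ⟨u, v, h1, h2⟩
  · rintro w a b ⟨i0, h0⟩ ⟨a1, a2, ⟨i1, h1⟩, u, v, ⟨i2, h2⟩, ⟨i3, h3⟩⟩
      ⟨b1, b2, ⟨i4, h4⟩, u', v', ⟨i5, h5⟩, ⟨i6, h6⟩⟩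
    obtain ⟨s, hs⟩ := exists_unused [i0, i1, i2, i3, i4, i5, i6] (by simp)
    simp only [List.mem_cons, List.not_mem_nil, or_false, not_or] at hs
    obtain ⟨s0, s1, s2, s3, s4, s5, s6⟩ := hs
    obtain ⟨φ, hφ⟩ := local_hom s
    have t0 := hφ i0 (Ne.symm s0) _ _ _ h0
    have t1 := hφ i1 (Ne.symm s1) _ _ _ h1
    have t2 := hφ i2 (Ne.symm s2) _ _ _ h2
    have t3 := hφ i3 (Ne.symm s3) _ _ _ h3
    have t4 := hφ i4 (Ne.symm s4) _ _ _ h4
    have t5 := hφ i5 (Ne.symm s5) _ _ _ h5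
    have t6 := hφ i6 (Ne.symm s6) _ _ _ h6
    exact lim_good.no _ _ _ t0 (lim_good.tg _ _ _ t1 (lim_good.ts _ _ _ _ t2 t3))
      (lim_good.tg _ _ _ t4 (lim_good.ts _ _ _ _ t5 t6))

/-- The operations. -/
theorem exists_ops : ∃ m : Fin 9 → (Fin 7 → ℕ) → ℕ, (∀ i, m i ∈ Cl 7) ∧
    ∀ i (u : Fin 4 → ℕ), m i (u ∘ tt) = m (i + 1) (u ∘ ss) := by
  obtain ⟨F, -, hF⟩ := universal (X := Q) QStr_good lim_ext
  refine ⟨fun i p => F (nf (i, p)), ?_, ?_⟩
  · intro i
    constructor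
    · intro p q r h
      exact (hF _ _ _).1 ⟨i, p, q, r, rfl, rfl, rfl, h⟩
    · intro p q r h
      exact ⟨0, TQ_reflect ((hF _ _ _).2 h) 0⟩
  · intro i u
    exact congrArg F (nf_glue i u)

/-- The signature. -/
def sg : Sig := ⟨Fin 9, fun _ => 7⟩

/-- The identities `f_i (y, x, w, z, z, w, z) = f_{i+1} (x, y, z, w, x, x, y)`. -/
def ids : Set (LTerm sg × LTerm sg) :=
  Set.range fun i : Fin 9 => ((LTerm.app (σ := sg) i fun j => (tt j : ℕ)),
    (LTerm.app (σ := sg) (i + 1) fun j => (ss j : ℕ)))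

theorem satisfies : alg.Satisfies ids := by
  obtain ⟨m, hm, hid⟩ := exists_ops
  refine ⟨fun i => m i, fun i => termOp_of (hm i), ?_⟩
  rintro _ ⟨i, rfl⟩ x
  exact hid i (fun k => x k)

theorem nontrivial : NontrivialSet ids := by
  rintro ⟨π, hπ⟩
  have hπ' : ∀ i : Fin 9, tt (π i) = ss (π (i + 1)) := by
    intro i
    have h := hπ _ ⟨i, rfl⟩ (fun n => decide (n = (tt (π i) : ℕ)))
    have h' : decide ((ss (π (i + 1)) : ℕ) = (tt (π i) : ℕ)) =
      decide ((tt (π i) : ℕ) = (tt (π i) : ℕ)) := h.symm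
    have h2 : (ss (π (i + 1)) : ℕ) = (tt (π i) : ℕ) := by simpa using h'
    exact Fin.ext h2.symm
  let v : Fin 9 → Fin 4 := fun i => ss (π i)
  have step : ∀ e : Fin 7, (ss e).val / 2 ≤ (tt e).val / 2 ∧
      ((ss e).val / 2 = (tt e).val / 2 → ((ss e).val + (tt e).val) % 2 = 1) := by decide
  have hv : ∀ i : Fin 9, (v i).val / 2 ≤ (v (i + 1)).val / 2 ∧
      ((v i).val / 2 = (v (i + 1)).val / 2 → ((v i).val + (v (i + 1)).val) % 2 = 1) := by
    intro i
    have := step (π i)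
    rw [hπ' i] at this
    exact this
  have h0 := hv 0
  have h1 := hv 1
  have h2 := hv 2
  have h3 := hv 3
  have h4 := hv 4
  have h5 := hv 5
  have h6 := hv 6
  have h7 := hv 7
  have h8 := hv 8
  have s0 : (0 : Fin 9) + 1 = 1 := by decide
  have s1 : (1 : Fin 9) + 1 = 2 := by decide
  have s2 : (2 : Fin 9) + 1 = 3 := by decide
  have s3 : (3 : Fin 9) + 1 = 4 := by decide
  have s4 : (4 : Fin 9) + 1 = 5 := by decide
  have s5 : (5 : Fin 9) + 1 = 6 := by decide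
  have s6 : (6 : Fin 9) + 1 = 7 := by decide
  have s7 : (7 : Fin 9) + 1 = 8 := by decide
  have s8 : (8 : Fin 9) + 1 = 0 := by decide
  rw [s0] at h0
  rw [s1] at h1
  rw [s2] at h2
  rw [s3] at h3
  rw [s4] at h4
  rw [s5] at h5
  rw [s6] at h6
  rw [s7] at h7
  rw [s8] at h8
  have d1 : (v 0).val / 2 = (v 1).val / 2 := by omega
  have d2 : (v 1).val / 2 = (v 2).val / 2 := by omega
  have d3 : (v 2).val / 2 = (v 3).val / 2 := by omega
  have d4 : (v 3).val / 2 = (v 4).val / 2 := by omega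
  have d5 : (v 4).val / 2 = (v 5).val / 2 := by omega
  have d6 : (v 5).val / 2 = (v 6).val / 2 := by omega
  have d7 : (v 6).val / 2 = (v 7).val / 2 := by omega
  have d8 : (v 7).val / 2 = (v 8).val / 2 := by omega
  have d9 : (v 8).val / 2 = (v 0).val / 2 := by omega
  have q0 := h0.2 d1
  have q1 := h1.2 d2
  have q2 := h2.2 d3
  have q3 := h3.2 d4
  have q4 := h4.2 d5
  have q5 := h5.2 d6
  have q6 := h6.2 d7
  have q7 := h7.2 d8
  have q8 := h8.2 d9
  omega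

end Pool.Agent.OligoTerm
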