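import Mathlib

/-!
Structures with a ternary relation `T`, a unary relation `G` and a binary relation `S`,
the class `Good` and its amalgamation property.
-/

namespace Pool.Agent.OligoTerm

/-- A structure on `X`: a ternary, a unary and a binary relation. -/
abbrev Str (X : Type) : Type := (X → X → X → Prop) × (X → Prop) × (X → X → Prop)

namespace Str
variable {X Y : Type}

abbrev T (M : Str X) : X → X → X → Prop := M.1
abbrev G (M : Str X) : X → Prop := M.2.1
abbrev S (M : Str X) : X → X → Prop := M.2.2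

/-- The class of structures we use. -/
structure Good (M : Str X) : Prop where
  tg : ∀ a b c, M.T a b c → M.S b c → M.G a
  ts : ∀ a b u v, M.T a u v → M.T b u v → M.S a b
  no : ∀ w a b, M.T w a b → M.G a → M.G b → False

/-- Pull back along a map. -/
def pull (M : Str Y) (j : X → Y) : Str X :=
  (fun a b c => M.T (j a) (j b) (j c), fun a => M.G (j a), fun a b => M.S (j a) (j b))

theorem Good.pull {M : Str Y} (h : M.Good) (j : X → Y) : (M.pull j).Good :=
  ⟨fun a b c => h.tg (j a) (j b) (j c), fun a b u v => h.ts (j a) (j b) (j u) (j v),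
    fun w a b => h.no (j w) (j a) (j b)⟩

/-- Push forward along a map. -/
def push (M : Str X) (j : X → Y) : Str Y :=
  (fun x y z => ∃ a b c, j a = x ∧ j b = y ∧ j c = z ∧ M.T a b c,
   fun x => ∃ a, j a = x ∧ M.G a,
   fun x y => ∃ a b, j a = x ∧ j b = y ∧ M.S a b)

theorem push_T {M : Str X} {j : X → Y} (hj : Function.Injective j) {a b c : X} :
    (M.push j).T (j a) (j b) (j c) ↔ M.T a b c := by
  constructor
  · rintro ⟨a', b', c', h1, h2, h3, h⟩
    rw [hj h1, hj h2, hj h3] at h; exact h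
  · intro h; exact ⟨a, b, c, rfl, rfl, rfl, h⟩

theorem push_G {M : Str X} {j : X → Y} (hj : Function.Injective j) {a : X} :
    (M.push j).G (j a) ↔ M.G a := by
  constructor
  · rintro ⟨a', h1, h⟩
    rw [hj h1] at h; exact h
  · intro h; exact ⟨a, rfl, h⟩

theorem push_S {M : Str X} {j : X → Y} (hj : Function.Injective j) {a b : X} :
    (M.push j).S (j a) (j b) ↔ M.S a b := by
  constructor
  · rintro ⟨a', b', h1, h2, h⟩
    rw [hj h1, hj h2] at h; exact h
  · intro h; exact ⟨a, b, rfl, rfl, h⟩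

theorem Good.push {M : Str X} (h : M.Good) {j : X → Y} (hj : Function.Injective j) :
    (M.push j).Good := by
  refine ⟨?_, ?_, ?_⟩
  · rintro x y z ⟨a, b, c, rfl, rfl, rfl, ht⟩ hs
    exact (push_G hj).2 (h.tg a b c ht ((push_S hj).1 hs))
  · rintro x y z w ⟨a, u, v, rfl, rfl, rfl, ht⟩ ⟨b, u', v', rfl, h1, h2, ht'⟩
    rw [hj h1, hj h2] at ht'
    exact (push_S hj).2 (h.ts a b u v ht ht')
  · rintro x y z ⟨w, a, b, rfl, rfl, rfl, ht⟩ hg hg'
    exact h.no w a b ht ((push_G hj).1 hg) ((push_G hj).1 hg')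

/-- `M` is supported on `U`. -/
structure Supp (M : Str X) (U : Set X) : Prop where
  T : ∀ a b c, M.T a b c → a ∈ U ∧ b ∈ U ∧ c ∈ U
  G : ∀ a, M.G a → a ∈ U
  S : ∀ a b, M.S a b → a ∈ U ∧ b ∈ U

/-- `M` and `N` agree on `U`. -/
structure Agree (M N : Str X) (U : Set X) : Prop where
  T : ∀ a ∈ U, ∀ b ∈ U, ∀ c ∈ U, M.T a b c ↔ N.T a b c
  G : ∀ a ∈ U, M.G a ↔ N.G a
  S : ∀ a ∈ U, ∀ b ∈ U, M.S a b ↔ N.S a b

theorem Agree.symm {M N : Str X} {U : Set X} (h : Agree M N U) : Agree N M U :=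
  ⟨fun a ha b hb c hc => (h.T a ha b hb c hc).symm, fun a ha => (h.G a ha).symm,
    fun a ha b hb => (h.S a ha b hb).symm⟩

theorem Agree.mono {M N : Str X} {U V : Set X} (h : Agree M N U) (hV : V ⊆ U) : Agree M N V :=
  ⟨fun a ha b hb c hc => h.T a (hV ha) b (hV hb) c (hV hc), fun a ha => h.G a (hV ha),
    fun a ha b hb => h.S a (hV ha) b (hV hb)⟩

theorem Agree.trans {M N P : Str X} {U : Set X} (h : Agree M N U) (h' : Agree N P U) :
    Agree M P U :=
  ⟨fun a ha b hb c hc => (h.T a ha b hb c hc).trans (h'.T a ha b hb c hc),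
    fun a ha => (h.G a ha).trans (h'.G a ha),
    fun a ha b hb => (h.S a ha b hb).trans (h'.S a ha b hb)⟩

/-- The amalgam of two structures on the same set. -/
def amal (M N : Str X) : Str X :=
  (fun a b c => M.T a b c ∨ N.T a b c,
   fun a => M.G a ∨ N.G a,
   fun a b => M.S a b ∨ N.S a b ∨
     ∃ u v, (M.T a u v ∨ N.T a u v) ∧ (M.T b u v ∨ N.T b u v))

theorem amal_comm (M N : Str X) : amal M N = amal N M := by
  unfold amal
  refine Prod.ext ?_ (Prod.ext ?_ ?_)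
  · funext a b c; exact propext or_comm
  · funext a; exact propext or_comm
  · funext a b
    refine propext ⟨?_, ?_⟩
    · rintro (h | h | ⟨u, v, h1, h2⟩)
      · exact Or.inr (Or.inl h)
      · exact Or.inl h
      · exact Or.inr (Or.inr ⟨u, v, h1.symm, h2.symm⟩)
    · rintro (h | h | ⟨u, v, h1, h2⟩)
      · exact Or.inr (Or.inl h)
      · exact Or.inl h
      · exact Or.inr (Or.inr ⟨u, v, h1.symm, h2.symm⟩)

theorem amal_agree {M N : Str X} {U V : Set X} (hM : M.Good) (hN : N.Good)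
    (sM : M.Supp U) (sN : N.Supp V) (hA : Agree M N (U ∩ V)) : Agree (amal M N) M U := by
  refine ⟨?_, ?_, ?_⟩
  · intro a ha b hb c hc
    constructor
    · rintro (h | h)
      · exact h
      · obtain ⟨h1, h2, h3⟩ := sN.T a b c h
        exact (hA.T a ⟨ha, h1⟩ b ⟨hb, h2⟩ c ⟨hc, h3⟩).2 h
    · intro h; exact Or.inl h
  · intro a ha
    constructor
    · rintro (h | h)
      · exact h
      · exact (hA.G a ⟨ha, sN.G a h⟩).2 h
    · intro h; exact Or.inl h
  · intro a ha b hb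
    constructor
    · rintro (h | h | ⟨u, v, h1, h2⟩)
      · exact h
      · obtain ⟨h1, h2⟩ := sN.S a b h
        exact (hA.S a ⟨ha, h1⟩ b ⟨hb, h2⟩).2 h
      · rcases h1 with h1 | h1 <;> rcases h2 with h2 | h2
        · exact hM.ts a b u v h1 h2
        · obtain ⟨_, hu, hv⟩ := sM.T _ _ _ h1
          obtain ⟨hb', hu', hv'⟩ := sN.T _ _ _ h2
          exact hM.ts a b u v h1 ((hA.T b ⟨hb, hb'⟩ u ⟨hu, hu'⟩ v ⟨hv, hv'⟩).2 h2)
        · obtain ⟨_, hu, hv⟩ := sM.T _ _ _ h2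
          obtain ⟨ha', hu', hv'⟩ := sN.T _ _ _ h1
          exact hM.ts a b u v ((hA.T a ⟨ha, ha'⟩ u ⟨hu, hu'⟩ v ⟨hv, hv'⟩).2 h1) h2
        · obtain ⟨ha', _, _⟩ := sN.T _ _ _ h1
          obtain ⟨hb', _, _⟩ := sN.T _ _ _ h2
          exact (hA.S a ⟨ha, ha'⟩ b ⟨hb, hb'⟩).2 (hN.ts a b u v h1 h2)
    · intro h; exact Or.inl h

theorem amal_agree' {M N : Str X} {U V : Set X} (hM : M.Good) (hN : N.Good)
    (sM : M.Supp U) (sN : N.Supp V) (hA : Agree M N (U ∩ V)) : Agree (amal M N) N V := by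
  rw [amal_comm]
  exact amal_agree hN hM sN sM (hA.symm.mono (by rw [Set.inter_comm]))

theorem amal_good {M N : Str X} {U V : Set X} (hM : M.Good) (hN : N.Good)
    (sM : M.Supp U) (sN : N.Supp V) (hA : Agree M N (U ∩ V)) : (amal M N).Good := by
  have h1 := amal_agree hM hN sM sN hA
  have h2 := amal_agree' hM hN sM sN hA
  refine ⟨?_, ?_, ?_⟩
  · rintro a b c (h | h) hs
    · obtain ⟨_, hb, hc⟩ := sM.T _ _ _ h
      exact Or.inl (hM.tg a b c h ((h1.S b hb c hc).1 hs))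
    · obtain ⟨_, hb, hc⟩ := sN.T _ _ _ h
      exact Or.inr (hN.tg a b c h ((h2.S b hb c hc).1 hs))
  · intro a b u v ha hb
    exact Or.inr (Or.inr ⟨u, v, ha, hb⟩)
  · rintro w a b (h | h) hga hgb
    · obtain ⟨_, ha, hb⟩ := sM.T _ _ _ h
      exact hM.no w a b h ((h1.G a ha).1 hga) ((h1.G b hb).1 hgb)
    · obtain ⟨_, ha, hb⟩ := sN.T _ _ _ h
      exact hN.no w a b h ((h2.G a ha).1 hga) ((h2.G b hb).1 hgb)

theorem amal_supp {M N : Str X} {U V W : Set X} (sM : M.Supp U) (sN : N.Supp V)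
    (hU : U ⊆ W) (hV : V ⊆ W) : (amal M N).Supp W := by
  have key : ∀ a b c, (M.T a b c ∨ N.T a b c) → a ∈ W ∧ b ∈ W ∧ c ∈ W := by
    rintro a b c (h | h)
    · obtain ⟨h1, h2, h3⟩ := sM.T _ _ _ h
      exact ⟨hU h1, hU h2, hU h3⟩
    · obtain ⟨h1, h2, h3⟩ := sN.T _ _ _ h
      exact ⟨hV h1, hV h2, hV h3⟩
  refine ⟨key, ?_, ?_⟩
  · rintro a (h | h)
    · exact hU (sM.G _ h)
    · exact hV (sN.G _ h)
  · rintro a b (h | h | ⟨u, v, h1, h2⟩)
    · exact ⟨hU (sM.S _ _ h).1, hU (sM.S _ _ h).2⟩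
    · exact ⟨hV (sN.S _ _ h).1, hV (sN.S _ _ h).2⟩
    · exact ⟨(key _ _ _ h1).1, (key _ _ _ h2).1⟩

end Str

end Pool.Agent.OligoTerm
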